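import Pool.Agent.H27.ZF.TA

/-!
Row ESD of the board zf: the elementary symmetric sum as a sum of Dirichlet polynomials over blocks.
-/

set_option autoImplicit false

namespace Pool.Agent.H52.ZF

open Pool.Agent.H27.ZF

lemma blocks (a : ℕ) (f : ℕ → ℂ) : ∀ b : ℕ, a ≤ b →
    ∑ r ∈ Finset.Icc (a + 1) b, ∑ n ∈ Bk r, f n = ∑ n ∈ Finset.Ioc (2 ^ a) (2 ^ b), f n := by
  intro b hab
  induction b, hab using Nat.le_induction with
  | base => simp
  | succ b hb ih =>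
    rw [Finset.sum_Icc_succ_top (by omega), ih]
    have h1 : Bk (b + 1) = Finset.Ioc (2 ^ b) (2 ^ (b + 1)) := by
      unfold Bk
      rw [pow_succ, Nat.mul_div_cancel _ (by norm_num)]
    rw [h1, Finset.sum_Ioc_consecutive f (Nat.pow_le_pow_right (by norm_num) hb)
      (Nat.pow_le_pow_right (by norm_num) (by omega))]

lemma dvd_prod {k : ℕ} (hk : 1 ≤ k) {S : Finset ℕ} (hS : ∀ p ∈ S, p.Prime) {q : ℕ}
    (hq : q.Prime) : q ∣ ∏ p ∈ S, p ^ k ↔ q ∈ S := by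
  constructor
  · intro h
    obtain ⟨p, hp, hd⟩ := (Prime.dvd_finsetProd_iff hq.prime _).mp h
    have h1 := hq.dvd_of_dvd_pow hd
    rw [(Nat.prime_dvd_prime_iff_eq hq (hS p hp)).mp h1]
    exact hp
  · intro h
    exact (dvd_pow_self q (by omega)).trans (Finset.dvd_prod_of_mem (fun p => p ^ k) h)

lemma prod_inj {k : ℕ} (hk : 1 ≤ k) {S T : Finset ℕ} (hS : ∀ p ∈ S, p.Prime)
    (hT : ∀ p ∈ T, p.Prime) (h : ∏ p ∈ S, p ^ k = ∏ p ∈ T, p ^ k) : S = T := by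
  ext q
  constructor
  · intro hq
    have h1 := (dvd_prod hk hS (hS q hq)).mpr hq
    rw [h] at h1
    exact (dvd_prod hk hT (hS q hq)).mp h1
  · intro hq
    have h1 := (dvd_prod hk hT (hT q hq)).mpr hq
    rw [← h] at h1
    exact (dvd_prod hk hS (hT q hq)).mp h1

lemma lam_prod {m : ℕ} {lam : ℕ → ℂ} {q : ℕ → ℕ → ℂ} (hE : Eul m lam q) (k : ℕ) (s : ℂ) :
    ∀ S : Finset ℕ, (∀ p ∈ S, p.Prime) →
    lam (∏ p ∈ S, p ^ k) * ((∏ p ∈ S, p ^ k : ℕ) : ℂ) ^ (-s) =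
      ∏ p ∈ S, (lam (p ^ k) * (p : ℂ) ^ (-((k : ℂ) * s))) := by
  intro S
  induction S using Finset.induction_on with
  | empty =>
    intro _
    simp [hE.one]
  | insert p S hp ih =>
    intro hS
    have hS' : ∀ q ∈ S, q.Prime := fun q hq => hS q (Finset.mem_insert_of_mem hq)
    have hpp : p.Prime := hS p (Finset.mem_insert_self p S)
    have hco : (p ^ k).Coprime (∏ q ∈ S, q ^ k) := by
      refine Nat.Coprime.prod_right fun q hq => ?_
      refine Nat.Coprime.pow _ _ ?_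
      rw [Nat.coprime_primes hpp (hS' q hq)]
      rintro rfl
      exact hp hq
    rw [Finset.prod_insert hp, Finset.prod_insert hp, hE.mul _ _ hco, ← ih hS', Nat.cast_mul,
      Complex.natCast_mul_natCast_cpow]
    have h1 : (((p ^ k : ℕ)) : ℂ) ^ (-s) = (p : ℂ) ^ (-((k : ℂ) * s)) := by
      rw [show -((k : ℂ) * s) = (k : ℂ) * (-s) by ring, Complex.natCast_cpow_natCast_mul,
        Nat.cast_pow]
    rw [h1]
    ring

lemma prod_lo {j k l : ℕ} (hk : 1 ≤ k) (hl : 1 ≤ l) {S : Finset ℕ} (hc : S.card = l)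
    (hS : ∀ p ∈ S, 2 ^ (j - 1) < p) : 2 ^ ((j - 1) * k * l) < ∏ p ∈ S, p ^ k := by
  have hne : S.Nonempty := by
    rw [← Finset.card_pos]
    omega
  have h1 : ∏ _p ∈ S, (2 ^ (j - 1)) ^ k < ∏ p ∈ S, p ^ k := by
    refine Finset.prod_lt_prod_of_nonempty (fun _ _ => by positivity) (fun p hp => ?_) hne
    exact Nat.pow_lt_pow_left (hS p hp) (by omega)
  rw [Finset.prod_const, hc, ← pow_mul, ← pow_mul] at h1
  rw [mul_assoc]
  exact h1

lemma prod_hi {j k l : ℕ} {S : Finset ℕ} (hc : S.card = l)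
    (hS : ∀ p ∈ S, p ≤ 2 ^ j) : ∏ p ∈ S, p ^ k ≤ 2 ^ (j * k * l) := by
  have h1 : ∏ p ∈ S, p ^ k ≤ ∏ _p ∈ S, (2 ^ j) ^ k :=
    Finset.prod_le_prod' fun p hp => Nat.pow_le_pow_left (hS p hp) k
  rw [Finset.prod_const, hc, ← pow_mul, ← pow_mul] at h1
  rw [mul_assoc]
  exact h1

theorem pf_ESD : T_ESD := by
  intro m lam q hE z0 z j k l hj hk hl s
  classical
  set U := UP z0 z j with hU
  have hUp : ∀ p ∈ U, p.Prime ∧ 2 ^ (j - 1) < p ∧ p ≤ 2 ^ j := by
    intro p hp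
    rw [hU, UP, Finset.mem_filter, Finset.mem_Ioc] at hp
    exact ⟨hp.2.1, hp.1.1, hp.1.2⟩
  have hSp : ∀ S ∈ Finset.powersetCard l U, S.card = l ∧ ∀ p ∈ S, p.Prime ∧ 2 ^ (j - 1) < p ∧
      p ≤ 2 ^ j := by
    intro S hS
    rw [Finset.mem_powersetCard] at hS
    exact ⟨hS.2, fun p hp => hUp p (hS.1 hp)⟩
  have hab : (j - 1) * k * l ≤ j * k * l := by
    gcongr
    omega
  have h1 := blocks ((j - 1) * k * l) (fun n => bb U k l n * lam n * (n : ℂ) ^ (-s))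
    (j * k * l) hab
  have h2 : ∑ r ∈ Finset.Icc ((j - 1) * k * l + 1) (j * k * l), DB lam (bb U k l) r s =
      ∑ n ∈ Finset.Ioc (2 ^ ((j - 1) * k * l)) (2 ^ (j * k * l)),
        bb U k l n * lam n * (n : ℂ) ^ (-s) := h1
  rw [h2]
  have hsub : (Finset.powersetCard l U).image (fun S => ∏ p ∈ S, p ^ k) ⊆
      Finset.Ioc (2 ^ ((j - 1) * k * l)) (2 ^ (j * k * l)) := by
    intro n hn
    obtain ⟨S, hS, rfl⟩ := Finset.mem_image.mp hn
    obtain ⟨hc, hp⟩ := hSp S hS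
    rw [Finset.mem_Ioc]
    exact ⟨prod_lo hk hl hc fun p h => (hp p h).2.1, prod_hi hc fun p h => (hp p h).2.2⟩
  rw [← Finset.sum_subset hsub]
  · rw [Finset.sum_image]
    · unfold ES
      refine Finset.sum_congr rfl fun S hS => ?_
      rw [← lam_prod hE k s S fun p hp => ((hSp S hS).2 p hp).1]
      have hb : bb U k l (∏ p ∈ S, p ^ k) = 1 := by
        unfold bb
        exact if_pos ⟨S, hS, rfl⟩
      rw [hb, one_mul]
    · intro S hS T hT h
      exact prod_inj hk (fun p hp => ((hSp S hS).2 p hp).1) (fun p hp => ((hSp T hT).2 p hp).1) h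
  · intro n _ hn
    have hb : bb U k l n = 0 := by
      unfold bb
      refine if_neg ?_
      rintro ⟨S, hS, rfl⟩
      exact hn (Finset.mem_image_of_mem _ hS)
    rw [hb, zero_mul, zero_mul]

end Pool.Agent.H52.ZF
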